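import Pool.Agent.Helper87.SL.Goals

/-! Packet SL-PIG. -/

namespace Pool.Agent.Helper5.SL

open Finset

theorem gPIG : Pool.Agent.Helper87.SL.G_PIG := by
  intro k K δ hδ
  have hδk : 0 < δ ^ k := pow_pos hδ k
  obtain ⟨Q₀, hQ₀⟩ := exists_nat_gt ((2 : ℝ) ^ (K * k) / δ ^ k)
  refine ⟨Q₀ + 1, by omega, ?_⟩
  intro n hn L hL hc
  have hn1 : 1 ≤ n := by omega
  have hQ : (2 : ℝ) ^ (K * k) < ((Q₀ + 1 : ℕ) + 1 : ℝ) * δ ^ k := by
    rw [div_lt_iff₀ hδk] at hQ₀
    push_cast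
    nlinarith
  set Q := Q₀ + 1 with hQdef
  let P : Finset (Fin k → Fin K → ℕ) := Fintype.piFinset L
  let T : Finset (Fin k → Fin K → ℕ) :=
    Fintype.piFinset fun _ => Fintype.piFinset fun _ => Icc 1 (n + Q)
  have hP : δ ^ k * (n : ℝ) ^ (K * k) ≤ (P.card : ℝ) := by
    have h1 : (P.card : ℝ) = ∏ c : Fin k, ((L c).card : ℝ) := by
      rw [Fintype.card_piFinset]
      push_cast
      rfl
    rw [h1]
    have h2 : ∏ _c : Fin k, (δ * (n : ℝ) ^ K) ≤ ∏ c : Fin k, ((L c).card : ℝ) := by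
      apply Finset.prod_le_prod
      · intro c _
        positivity
      · intro c _
        exact hc c
    rw [Finset.prod_const, Finset.card_univ, Fintype.card_fin] at h2
    refine le_trans (le_of_eq ?_) h2
    rw [mul_pow, ← pow_mul]
  have hT : (T.card : ℝ) ≤ 2 ^ (K * k) * (n : ℝ) ^ (K * k) := by
    have h1 : T.card = (n + Q) ^ (K * k) := by
      rw [Fintype.card_piFinset]
      simp only [Fintype.card_piFinset, Nat.card_Icc, Finset.prod_const, Finset.card_univ,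
        Fintype.card_fin]
      rw [← pow_mul]
      congr 1
    rw [h1, ← mul_pow]
    push_cast
    apply pow_le_pow_left₀ (by positivity)
    have : (Q : ℝ) ≤ n := by exact_mod_cast hn
    linarith
  have hlt : T.card < ((range (Q + 1)) ×ˢ P).card := by
    rw [Finset.card_product, Finset.card_range]
    have hnp : (0 : ℝ) < (n : ℝ) ^ (K * k) := by
      have : (0 : ℝ) < n := by exact_mod_cast hn1
      positivity
    have h3 : (T.card : ℝ) < ((Q + 1 : ℕ) : ℝ) * (P.card : ℝ) := by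
      have h4 : (2 : ℝ) ^ (K * k) * (n : ℝ) ^ (K * k) <
          ((Q : ℝ) + 1) * δ ^ k * (n : ℝ) ^ (K * k) :=
        mul_lt_mul_of_pos_right (by exact_mod_cast hQ) hnp
      calc (T.card : ℝ) ≤ 2 ^ (K * k) * (n : ℝ) ^ (K * k) := hT
        _ < ((Q : ℝ) + 1) * δ ^ k * (n : ℝ) ^ (K * k) := h4
        _ = ((Q : ℝ) + 1) * (δ ^ k * (n : ℝ) ^ (K * k)) := by ring
        _ ≤ ((Q : ℝ) + 1) * (P.card : ℝ) := by gcongr
        _ = ((Q + 1 : ℕ) : ℝ) * (P.card : ℝ) := by push_cast; ring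
    exact_mod_cast h3
  let f : ℕ × (Fin k → Fin K → ℕ) → (Fin k → Fin K → ℕ) := fun p c j => p.2 c j + p.1
  have hmaps : ∀ p ∈ (range (Q + 1)) ×ˢ P, f p ∈ T := by
    rintro ⟨t, I⟩ hp
    rw [Finset.mem_product, Finset.mem_range] at hp
    rw [Fintype.mem_piFinset]
    intro c
    rw [Fintype.mem_piFinset]
    intro j
    have hI : I c ∈ L c := (Fintype.mem_piFinset.1 hp.2) c
    have h1 := Finset.mem_Icc.1 (hL c (I c) hI j)
    have h2 : t < Q + 1 := hp.1
    change I c j + t ∈ Icc 1 (n + Q)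
    rw [Finset.mem_Icc]
    omega
  obtain ⟨⟨t, I⟩, hx, ⟨t', I'⟩, hy, hne, heq⟩ :=
    Finset.exists_ne_map_eq_of_card_lt_of_maps_to hlt hmaps
  rw [Finset.mem_product, Finset.mem_range] at hx hy
  have he : ∀ c j, I c j + t = I' c j + t' := fun c j => congrFun (congrFun heq c) j
  have key : ∀ (t t' : ℕ) (I I' : Fin k → Fin K → ℕ), t < t' → t' < Q + 1 →
      I ∈ P → I' ∈ P → (∀ c j, I c j + t = I' c j + t') →
      ∃ q : ℕ, 1 ≤ q ∧ q ≤ Q ∧ ∀ c, ∃ I ∈ L c, (fun j => I j + q) ∈ L c := by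
    intro t t' I I' h1 h2 h3 h4 h5
    refine ⟨t' - t, by omega, by omega, fun c => ⟨I' c, (Fintype.mem_piFinset.1 h4) c, ?_⟩⟩
    have : (fun j => I' c j + (t' - t)) = I c := by
      funext j
      have := h5 c j
      omega
    rw [this]
    exact (Fintype.mem_piFinset.1 h3) c
  rcases lt_trichotomy t t' with h | h | h
  · exact key t t' I I' h hy.1 hx.2 hy.2 he
  · exfalso
    apply hne
    subst h
    have : I = I' := by
      funext c j
      have := he c j
      omega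
    rw [this]
  · exact key t' t I' I h hx.1 hy.2 hx.2 (fun c j => (he c j).symm)

end Pool.Agent.Helper5.SL
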